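import Mathlib

section

open MeasureTheory Set Filter
open scoped ENNReal Topology

namespace Pool.Agent.MP701998

variable {k : ℕ} {Ω : Type}

/-- shift of a configuration on the free group -/
def sh (g : FreeGroup (Fin k)) (x : FreeGroup (Fin k) → Ω) : FreeGroup (Fin k) → Ω :=
  fun h => x (h * g)

/-- formal inverse of a letter -/
def iv (s : Fin k × Bool) : Fin k × Bool := (s.1, !s.2)

theorem iv_iv (s : Fin k × Bool) : iv (iv s) = s := by simp [iv]

theorem sh_sh (g g' : FreeGroup (Fin k)) (x : FreeGroup (Fin k) → Ω) :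
    sh g (sh g' x) = sh (g * g') x := by
  funext h
  simp [sh, mul_assoc]

theorem sh_one (x : FreeGroup (Fin k) → Ω) : sh 1 x = x := by
  funext h
  simp [sh]

theorem sh_iv (s : Fin k × Bool) (x : FreeGroup (Fin k) → Ω) :
    sh (FreeGroup.mk [iv s]) (sh (FreeGroup.mk [s]) x) = x := by
  have : FreeGroup.mk [iv s] = (FreeGroup.mk [s])⁻¹ := by
    rw [FreeGroup.inv_mk]
    simp [FreeGroup.invRev, iv]
  rw [sh_sh, this, inv_mul_cancel, sh_one]

/-- configurations with a path of length `m` inside `A` which does not start with `t` -/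
def Pth (A : Set Ω) : ℕ → Fin k × Bool → Set (FreeGroup (Fin k) → Ω)
  | 0, _ => {x | x 1 ∈ A}
  | m + 1, t => {x | x 1 ∈ A ∧ ∃ s, s ≠ t ∧ sh (FreeGroup.mk [s]) x ∈ Pth A m (iv s)}

theorem Pth_succ (A : Set Ω) : ∀ (m : ℕ) (t : Fin k × Bool), Pth A (m + 1) t ⊆ Pth A m t
  | 0, _ => fun _ hx => hx.1
  | m + 1, _ => fun _ ⟨h1, s, hs, h2⟩ => ⟨h1, s, hs, Pth_succ A m _ h2⟩

theorem Pth_anti (A : Set Ω) (t : Fin k × Bool) : Antitone fun m => Pth A m t :=
  antitone_nat_of_succ_le fun m => Pth_succ A m t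

/-- the edge `s` is oriented away from the origin -/
def Ori (A : Set Ω) (s : Fin k × Bool) : Set (FreeGroup (Fin k) → Ω) :=
  {x | x 1 ∈ A ∧ ∀ m, x ∈ Pth A m s → sh (FreeGroup.mk [s]) x ∈ Pth A m (iv s)}

theorem Ori_total (A : Set Ω) (s : Fin k × Bool) {x : FreeGroup (Fin k) → Ω} (h1 : x 1 ∈ A)
    (h2 : x (FreeGroup.mk [s]) ∈ A) : x ∈ Ori A s ∨ sh (FreeGroup.mk [s]) x ∈ Ori A (iv s) := by
  by_contra h
  have h3 : sh (FreeGroup.mk [s]) x 1 ∈ A := by simpa [sh] using h2
  simp only [Ori, mem_ofPred_eq, not_or, not_and, not_forall, iv_iv, sh_iv] at h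
  obtain ⟨m, hm1, hm2⟩ := h.1 h1
  obtain ⟨m', hm1', hm2'⟩ := h.2 h3
  rcases le_total m m' with h | h
  · exact hm2 (Pth_anti A _ h hm1')
  · exact hm2' (Pth_anti A _ h hm1)

theorem Ori_two (A : Set Ω) {s s' : Fin k × Bool} (h : s ≠ s') {x : FreeGroup (Fin k) → Ω}
    (h1 : x ∈ Ori A s) (h2 : x ∈ Ori A s') : ∀ m, x ∈ Pth A m s ∧ x ∈ Pth A m s'
  | 0 => ⟨h1.1, h1.1⟩
  | m + 1 => ⟨⟨h1.1, s', h.symm, h2.2 m (Ori_two A h h1 h2 m).2⟩,
      ⟨h1.1, s, h, h1.2 m (Ori_two A h h1 h2 m).1⟩⟩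

variable [MeasurableSpace Ω]

theorem measurable_sh (g : FreeGroup (Fin k)) : Measurable (sh (Ω := Ω) g) :=
  measurable_pi_lambda _ fun _ => measurable_pi_apply _

theorem measurableSet_Pth {A : Set Ω} (hA : MeasurableSet A) :
    ∀ (m : ℕ) (t : Fin k × Bool), MeasurableSet (Pth A m t)
  | 0, _ => measurable_pi_apply 1 hA
  | m + 1, t => by
    have : Pth A (m + 1) t = (fun x => x 1) ⁻¹' A ∩
        ⋃ s, ⋃ (_ : s ≠ t), sh (FreeGroup.mk [s]) ⁻¹' Pth A m (iv s) := by
      ext x
      simp [Pth]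
    rw [this]
    exact (measurable_pi_apply 1 hA).inter (MeasurableSet.iUnion fun s =>
      MeasurableSet.iUnion fun _ => measurable_sh _ (measurableSet_Pth hA m _))

theorem measurableSet_Ori {A : Set Ω} (hA : MeasurableSet A) (s : Fin k × Bool) :
    MeasurableSet (Ori A s) := by
  have : Ori A s = (fun x => x 1) ⁻¹' A ∩
      ⋂ m, ((Pth A m s)ᶜ ∪ sh (FreeGroup.mk [s]) ⁻¹' Pth A m (iv s)) := by
    ext x
    simp only [Ori, mem_ofPred_eq, mem_inter_iff, mem_preimage, mem_iInter, mem_union,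
      mem_compl_iff, imp_iff_not_or]
  rw [this]
  exact (measurable_pi_apply 1 hA).inter (MeasurableSet.iInter fun m =>
    (measurableSet_Pth hA m s).compl.union (measurable_sh _ (measurableSet_Pth hA m _)))

variable (μ : Measure Ω) [IsProbabilityMeasure μ]

theorem measurePreserving_sh (g : FreeGroup (Fin k)) :
    MeasurePreserving (sh g) (Measure.infinitePi fun _ : FreeGroup (Fin k) => μ)
      (Measure.infinitePi fun _ : FreeGroup (Fin k) => μ) :=
  ⟨measurable_sh g, Measure.map_infinitePi_infinitePi_of_inj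
    (P := fun _ : FreeGroup (Fin k) => μ) (f := fun h => h * g) (mul_left_injective g)⟩

theorem meas_Pth {A : Set Ω} (hA : MeasurableSet A) (m : ℕ) :
    ∀ (t : Fin k × Bool) (w : List (Fin k × Bool)) (F : Finset (FreeGroup (Fin k))),
      FreeGroup.IsReduced w → (∀ s, s ≠ t → FreeGroup.IsReduced (s :: w)) →
      (∀ h ∈ F, h.norm < w.length) →
      (Measure.infinitePi fun _ : FreeGroup (Fin k) => μ)
        ((F : Set (FreeGroup (Fin k))).pi (fun _ => A) ∩ sh (FreeGroup.mk w) ⁻¹' Pth A m t) ≤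
        (2 * k * μ A) ^ m * μ A ^ (F.card + 1) := by
  have hn : ∀ w : List (Fin k × Bool), FreeGroup.IsReduced w →
      (FreeGroup.mk w).norm = w.length := fun w hw => by
    rw [FreeGroup.norm, FreeGroup.toWord_mk, hw.reduce_eq]
  induction m with
  | zero =>
    intro t w F hw _ hF
    have h1 : FreeGroup.mk w ∉ F := fun h => by
      have := hF _ h
      rw [hn w hw] at this
      exact lt_irrefl _ this
    have h2 : (F : Set (FreeGroup (Fin k))).pi (fun _ => A) ∩ sh (FreeGroup.mk w) ⁻¹' Pth A 0 t =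
        ((insert (FreeGroup.mk w) F : Finset _) : Set (FreeGroup (Fin k))).pi (fun _ => A) := by
      ext x
      simp [Pth, sh, and_comm]
    rw [h2, Measure.infinitePi_pi _ fun _ _ => hA, Finset.prod_const,
      Finset.card_insert_of_notMem h1, pow_zero, one_mul]
  | succ m ih =>
    intro t w F hw hs hF
    have h1 : FreeGroup.mk w ∉ F := fun h => by
      have := hF _ h
      rw [hn w hw] at this
      exact lt_irrefl _ this
    have h2 : (F : Set (FreeGroup (Fin k))).pi (fun _ => A) ∩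
        sh (FreeGroup.mk w) ⁻¹' Pth A (m + 1) t ⊆ ⋃ s ∈ Finset.univ.erase t,
        (((insert (FreeGroup.mk w) F : Finset _) : Set (FreeGroup (Fin k))).pi (fun _ => A) ∩
          sh (FreeGroup.mk (s :: w)) ⁻¹' Pth A m (iv s)) := by
      rintro x ⟨hx1, hx2, s, hs1, hs2⟩
      simp only [mem_iUnion]
      refine ⟨s, by simpa using hs1, ?_, ?_⟩
      · intro h hh
        rcases Finset.mem_insert.1 (Finset.mem_coe.1 hh) with rfl | hh
        · simpa [sh] using hx2
        · exact hx1 h hh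
      · rw [sh_sh, FreeGroup.mul_mk] at hs2
        exact hs2
    refine (measure_mono h2).trans ((measure_biUnion_finset_le _ _).trans ?_)
    refine (Finset.sum_le_card_nsmul _ _ ((2 * k * μ A) ^ m * μ A ^ (F.card + 1 + 1))
      fun s hs' => ?_).trans ?_
    · have hs'' := hs s (Finset.ne_of_mem_erase hs')
      have := ih (iv s) (s :: w) (insert (FreeGroup.mk w) F) hs'' (fun s' h' => ?_) fun h hh => ?_
      · rwa [Finset.card_insert_of_notMem h1] at this
      · refine FreeGroup.isReduced_cons_cons.2 ⟨fun h1 => ?_, hs''⟩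
        by_contra h2
        refine h' (Prod.ext h1 ?_)
        simp only [iv]
        revert h2
        cases s'.2 <;> cases s.2 <;> simp
      · rcases Finset.mem_insert.1 hh with rfl | hh
        · rw [hn w hw]
          simp
        · have := hF h hh
          simp only [List.length_cons]
          omega
    · have h3 : (((Finset.univ.erase t).card : ℕ) : ℝ≥0∞) ≤ 2 * k := by
        have : (Finset.univ.erase t).card ≤ 2 * k := by
          refine Finset.card_erase_le.trans ?_
          simp [mul_comm]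
        exact_mod_cast this
      rw [nsmul_eq_mul]
      refine (mul_le_mul_left h3 _).trans (le_of_eq ?_)
      ring

theorem meas_iInter_Pth {A : Set Ω} (hA : MeasurableSet A) (h : 2 * k * μ A < 1)
    (t : Fin k × Bool) :
    (Measure.infinitePi fun _ : FreeGroup (Fin k) => μ) (⋂ m, Pth A m t) = 0 := by
  refine le_antisymm (ge_of_tendsto' (ENNReal.tendsto_pow_atTop_nhds_zero_of_lt_one h)
    fun m => ?_) bot_le
  have h1 := meas_Pth μ hA m t [] ∅ FreeGroup.IsReduced.nil
    (fun _ _ => FreeGroup.IsReduced.singleton) (by simp)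
  rw [← FreeGroup.one_eq_mk] at h1
  refine (measure_mono ?_).trans (h1.trans ?_)
  · intro x hx
    refine ⟨by simp, ?_⟩
    rw [mem_preimage, sh_one]
    exact mem_iInter.1 hx m
  · exact mul_le_of_le_one_right' (pow_le_one₀ bot_le prob_le_one)

/-- almost surely at most one edge is oriented away from the origin -/
theorem ae_Ori {A : ℕ → Set Ω} (hA : ∀ n, MeasurableSet (A n)) (h : ∀ n, 2 * k * μ (A n) < 1) :
    ∀ᵐ x ∂(Measure.infinitePi fun _ : FreeGroup (Fin k) => μ), ∀ n, ∀ s s' : Fin k × Bool,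
      x ∈ Ori (A n) s → x ∈ Ori (A n) s' → s = s' := by
  rw [ae_all_iff]
  intro n
  rw [ae_all_iff]
  intro s
  filter_upwards [measure_eq_zero_iff_ae_notMem.1 (meas_iInter_Pth μ (hA n) (h n) s)]
    with x hx s' h1 h2
  by_contra h3
  exact hx (mem_iInter.2 fun m => (Ori_two _ h3 h1 h2 m).1)

end Pool.Agent.MP701998

end

section

open MeasureTheory Set Filter
open scoped ENNReal Topology Classical

namespace Pool.Agent.MP701998

/-- bounded real sequences -/
abbrev Linf : Type := lp (fun _ : ℕ => ℝ) ⊤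

/-- coordinatewise measurable maps into the unit ball -/
def Good {X : Type*} [MeasurableSpace X] (f : X → Linf) : Prop :=
  (∀ n, Measurable fun x => f x n) ∧ ∀ x, ‖f x‖ ≤ 1

/-- universal measurability of a functional -/
def UM (L : Linf →L[ℝ] ℝ) : Prop :=
  ∀ (X : Type) [MeasurableSpace X] (μ : Measure X) [IsProbabilityMeasure μ] (f : X → Linf),
    Good f → AEMeasurable (fun x => L (f x)) μ

theorem abs_le_norm (v : Linf) (n : ℕ) : ‖v n‖ ≤ ‖v‖ := lp.norm_apply_le_norm (by simp) v n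

/-- restriction of a sequence to a set of indices -/
noncomputable def cut (v : Linf) (S : Set ℕ) : Linf :=
  ⟨fun n => if n ∈ S then v n else 0, memℓp_infty ⟨‖v‖, by
    rintro _ ⟨n, rfl⟩
    by_cases h : n ∈ S
    · simpa [h] using abs_le_norm v n
    · simp [h]⟩⟩

theorem cut_apply (v : Linf) (S : Set ℕ) (n : ℕ) : cut v S n = if n ∈ S then v n else 0 := rfl

theorem norm_cut_le (v : Linf) (S : Set ℕ) : ‖cut v S‖ ≤ ‖v‖ :=
  lp.norm_le_of_forall_le' _ fun n => by
    rw [cut_apply]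
    split_ifs
    · exact abs_le_norm v n
    · simp

theorem cut_add (v : Linf) (S : Set ℕ) : cut v S + cut v Sᶜ = v := by
  ext n
  rw [lp.coeFn_add, Pi.add_apply, cut_apply, cut_apply]
  by_cases h : n ∈ S <;> simp [h]

theorem cut_ne {v : Linf} {S : Set ℕ} {n : ℕ} (h : cut v S n ≠ 0) : n ∈ S ∧ v n ≠ 0 := by
  rw [cut_apply] at h
  by_cases h' : n ∈ S
  · exact ⟨h', by simpa [h'] using h⟩
  · simp [h'] at h

theorem Good.cut {X : Type*} [MeasurableSpace X] {f : X → Linf} (hf : Good f) {S : X → Set ℕ}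
    (hS : ∀ n, MeasurableSet {x | n ∈ S x}) : Good fun x => cut (f x) (S x) :=
  ⟨fun n => Measurable.ite (hS n) (hf.1 n) measurable_const,
    fun x => (norm_cut_le _ _).trans (hf.2 x)⟩

theorem Good.comp {X Y : Type*} [MeasurableSpace X] [MeasurableSpace Y] {f : Y → Linf}
    (hf : Good f) {φ : X → Y} (hφ : Measurable φ) : Good fun x => f (φ x) :=
  ⟨fun n => (hf.1 n).comp hφ, fun _ => hf.2 _⟩

theorem norm_sum_le_one {ι : Type*} [Fintype ι] (W : ι → Linf) (h1 : ∀ i, ‖W i‖ ≤ 1)
    (h2 : ∀ n i j, W i n ≠ 0 → W j n ≠ 0 → i = j) : ‖∑ i, W i‖ ≤ 1 :=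
  lp.norm_le_of_forall_le' _ fun n => by
    rw [lp.coeFn_sum, Finset.sum_apply]
    by_cases h : ∃ i, W i n ≠ 0
    · obtain ⟨i, hi⟩ := h
      rw [Finset.sum_eq_single i (fun j _ hj => by
        by_contra h'
        exact hj (h2 n j i h' hi)) (by simp)]
      exact (abs_le_norm _ n).trans (h1 i)
    · push Not at h
      simp [h]

variable {L : Linf →L[ℝ] ℝ} (hL : UM L)
include hL

theorem UM.integrable {X : Type} [MeasurableSpace X] (μ : Measure X) [IsProbabilityMeasure μ]
    {f : X → Linf} (hf : Good f) : Integrable (fun x => L (f x)) μ :=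
  Integrable.of_bound (hL X μ f hf).aestronglyMeasurable ‖L‖ (Eventually.of_forall fun x =>
    (L.le_opNorm _).trans (mul_le_of_le_one_right (norm_nonneg _) (hf.2 x)))

theorem UM.integral_comp {X Y : Type} [MeasurableSpace X] [MeasurableSpace Y] {μ : Measure X}
    {ν : Measure Y} [IsProbabilityMeasure ν] {φ : X → Y} (hφ : MeasurePreserving φ μ ν)
    {f : Y → Linf} (hf : Good f) : ∫ x, L (f (φ x)) ∂μ = ∫ y, L (f y) ∂ν := by
  have h := (hL Y ν f hf).aestronglyMeasurable
  rw [← hφ.map_eq] at h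
  have h2 := integral_map hφ.measurable.aemeasurable h
  rw [hφ.map_eq] at h2
  exact h2.symm

omit hL in
theorem abs_integral_le {X : Type} [MeasurableSpace X] (μ : Measure X) [IsProbabilityMeasure μ]
    {f : X → Linf} {c : ℝ} (h : ∀ᵐ x ∂μ, ‖f x‖ ≤ c) : |∫ x, L (f x) ∂μ| ≤ ‖L‖ * c := by
  have := norm_integral_le_of_norm_le_const (μ := μ) (f := fun x => L (f x)) (C := ‖L‖ * c) (by
    filter_upwards [h] with x hx
    exact (L.le_opNorm _).trans (mul_le_mul_of_nonneg_left hx (norm_nonneg _)))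
  simpa using this

theorem UM.sum_le {X ι : Type} [Fintype ι] [MeasurableSpace X] (μ : Measure X)
    [IsProbabilityMeasure μ] {W : ι → X → Linf} (hW : ∀ i, Good (W i))
    (h : ∀ᵐ x ∂μ, ∀ n i j, W i x n ≠ 0 → W j x n ≠ 0 → i = j) :
    |∑ i, ∫ x, L (W i x) ∂μ| ≤ ‖L‖ := by
  rw [← integral_finsetSum _ fun i _ => hL.integrable μ (hW i)]
  simp only [← map_sum]
  refine (abs_integral_le μ (c := 1) ?_).trans (mul_one _).le
  filter_upwards [h] with x hx
  exact norm_sum_le_one _ (fun i => (hW i).2 x) hx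

theorem UM.integral_cut {X : Type} [MeasurableSpace X] (μ : Measure X) [IsProbabilityMeasure μ]
    {f : X → Linf} (hf : Good f) {S : X → Set ℕ} (hS : ∀ n, MeasurableSet {x | n ∈ S x}) :
    ∫ x, L (f x) ∂μ = ∫ x, L (cut (f x) (S x)) ∂μ + ∫ x, L (cut (f x) (S x)ᶜ) ∂μ := by
  rw [← integral_add (hL.integrable μ (hf.cut hS))
    (hL.integrable μ (hf.cut (S := fun x => (S x)ᶜ) fun n => (hS n).compl))]
  simp only [← map_add, cut_add]

/-- mass transport on the free group -/
theorem UM.edge {Ω : Type} [MeasurableSpace Ω] (μ : Measure Ω) [IsProbabilityMeasure μ] (k : ℕ)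
    {A : ℕ → Set Ω} (hA : ∀ n, MeasurableSet (A n)) (hk : ∀ n, 2 * k * μ (A n) < 1)
    {h : Ω × Ω → Linf} (hh : Good h) (hs : ∀ p n, h p n ≠ 0 → p.1 ∈ A n ∧ p.2 ∈ A n) :
    k * |∫ p, L (h p) ∂(μ.prod μ)| ≤ 2 * ‖L‖ := by
  set P := Measure.infinitePi fun _ : FreeGroup (Fin k) => μ with hP
  let φ : Fin k → (FreeGroup (Fin k) → Ω) → Ω × Ω :=
    fun i x => (x 1, x (FreeGroup.mk [(i, true)]))
  have hφm : ∀ i, Measurable (φ i) := fun i =>
    (measurable_pi_apply _).prodMk (measurable_pi_apply _)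
  have hφ : ∀ i, MeasurePreserving (φ i) P (μ.prod μ) := fun i =>
    ⟨hφm i, Measure.infinitePi_map_eval_prod (P := fun _ : FreeGroup (Fin k) => μ)
      (FreeGroup.of_ne_one i).symm⟩
  let S : Fin k → (FreeGroup (Fin k) → Ω) → Set ℕ := fun i x => {n | x ∈ Ori (A n) (i, true)}
  have hS : ∀ i n, MeasurableSet {x | n ∈ S i x} := fun i n => measurableSet_Ori (hA n) _
  have hH : ∀ i, Good fun x => h (φ i x) := fun i => hh.comp (hφm i)
  have hV : ∀ i, Good fun x => cut (h (φ i x)) (S i x)ᶜ := fun i =>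
    (hH i).cut (S := fun x => (S i x)ᶜ) fun n => (hS i n).compl
  have h1 : ∀ i, ∫ p, L (h p) ∂(μ.prod μ) = ∫ x, L (cut (h (φ i x)) (S i x)) ∂P +
      ∫ x, L (cut (h (φ i (sh (FreeGroup.mk [iv (i, true)]) x)))
        (S i (sh (FreeGroup.mk [iv (i, true)]) x))ᶜ) ∂P := fun i => by
    rw [← hL.integral_comp (hφ i) hh, hL.integral_cut P (hH i) (hS i),
      ← hL.integral_comp (measurePreserving_sh μ (FreeGroup.mk [iv (i, true)])) (hV i)]
  have h2 := hL.sum_le P (fun i => (hH i).cut (hS i)) (by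
    filter_upwards [ae_Ori μ hA hk] with x hx n i j hi hj
    exact congrArg Prod.fst (hx n _ _ (cut_ne hi).1 (cut_ne hj).1))
  have h3 := hL.sum_le P (fun i => (hV i).comp (measurable_sh (FreeGroup.mk [iv (i, true)]))) (by
    have key : ∀ (x : FreeGroup (Fin k) → Ω) n i,
        cut (h (φ i (sh (FreeGroup.mk [iv (i, true)]) x)))
          (S i (sh (FreeGroup.mk [iv (i, true)]) x))ᶜ n ≠ 0 → x ∈ Ori (A n) (iv (i, true)) := by
      intro x n i hi
      obtain ⟨a1, a2⟩ := cut_ne hi
      obtain ⟨a3, a4⟩ := hs _ n a2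
      have a5 := (Ori_total (A n) (i, true) a3 a4).resolve_left a1
      have a6 := sh_iv (iv (i, true)) x
      rw [iv_iv] at a6
      rwa [a6] at a5
    filter_upwards [ae_Ori μ hA hk] with x hx n i j hi hj
    exact congrArg Prod.fst (hx n _ _ (key x n i hi) (key x n j hj)))
  have h4 : (k : ℝ) * ∫ p, L (h p) ∂(μ.prod μ) = ∑ i : Fin k, ∫ p, L (h p) ∂(μ.prod μ) := by
    simp
  rw [Finset.sum_congr rfl fun i _ => h1 i, Finset.sum_add_distrib] at h4
  rw [← Nat.abs_cast k, ← abs_mul, h4, two_mul]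
  exact (abs_add_le _ _).trans (add_le_add h2 h3)

theorem UM.halve (j : ℕ) : ∀ ε : ℝ, 0 < ε → ∃ η : ℝ≥0∞, 0 < η ∧
    ∀ (X : Type) [MeasurableSpace X] (μ : Measure X) [IsProbabilityMeasure μ] (g : X → Linf),
      Good g → (∀ n, μ {x | g x n ≠ 0} ≤ η) → |∫ x, L (g x) ∂μ| ≤ ‖L‖ / 2 ^ j + ε := by
  induction j with
  | zero =>
    intro ε hε
    refine ⟨1, one_pos, fun X _ μ _ g hg _ => ?_⟩
    have := abs_integral_le (L := L) μ (Eventually.of_forall hg.2)
    rw [pow_zero, div_one]
    linarith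
  | succ j ih =>
    intro ε hε
    obtain ⟨η, hη, H⟩ := ih ε hε
    obtain ⟨k, hk⟩ := exists_nat_gt (4 * ‖L‖ / ε)
    have hk0 : (0 : ℝ) < k := lt_of_le_of_lt (by positivity) hk
    rw [div_lt_iff₀ hε] at hk
    refine ⟨min (η / 2) (2 * k + 1)⁻¹, lt_min (ENNReal.half_pos hη.ne')
      (ENNReal.inv_pos.2 (by finiteness)), fun X _ μ _ g hg hZ => ?_⟩
    have hA : ∀ n, MeasurableSet {x | g x n ≠ 0} := fun n =>
      (hg.1 n (measurableSet_singleton 0)).compl
    have hk' : ∀ n, 2 * k * μ {x | g x n ≠ 0} < 1 := fun n => by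
      refine lt_of_le_of_lt (mul_le_mul_right ((hZ n).trans (min_le_right _ _)) _) ?_
      rw [← div_eq_mul_inv, ENNReal.div_lt_iff (by simp) (Or.inl (by finiteness)), one_mul]
      exact ENNReal.lt_add_right (by finiteness) one_ne_zero
    have g1 : Good fun p : X × X => g p.1 := hg.comp measurable_fst
    have g2 : Good fun p : X × X => g p.2 := hg.comp measurable_snd
    have s1 : ∀ n, MeasurableSet {p : X × X | n ∈ {n | g p.1 n ≠ 0}} := fun n =>
      measurable_fst (hA n)
    have s2 : ∀ n, MeasurableSet {p : X × X | n ∈ {n | g p.2 n ≠ 0}} := fun n =>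
      measurable_snd (hA n)
    have e1 := hL.integral_cut (μ.prod μ) g1 s2
    have e2 := hL.integral_cut (μ.prod μ) g2 s1
    rw [hL.integral_comp measurePreserving_fst hg] at e1
    rw [hL.integral_comp measurePreserving_snd hg] at e2
    have b1 := hL.edge μ k hA hk' (g1.cut s2) fun p n h => ⟨(cut_ne h).2, (cut_ne h).1⟩
    have b2 := hL.edge μ k hA hk' (g2.cut s1) fun p n h => ⟨(cut_ne h).1, (cut_ne h).2⟩
    have c1 := g1.cut (S := fun p => {n | g p.2 n ≠ 0}ᶜ) fun n => (s2 n).compl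
    have c2 := g2.cut (S := fun p => {n | g p.1 n ≠ 0}ᶜ) fun n => (s1 n).compl
    have c3 : Good fun p : X × X =>
        cut (g p.1) {n | g p.2 n ≠ 0}ᶜ + cut (g p.2) {n | g p.1 n ≠ 0}ᶜ := by
      refine ⟨fun n => (c1.1 n).add (c2.1 n), fun p => lp.norm_le_of_forall_le' _ fun n => ?_⟩
      rw [lp.coeFn_add, Pi.add_apply, cut_apply, cut_apply]
      have a1 := (abs_le_norm _ n).trans (hg.2 p.1)
      have a2 := (abs_le_norm _ n).trans (hg.2 p.2)
      by_cases h1 : g p.1 n = 0 <;> by_cases h2 : g p.2 n = 0 <;> simp_all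
    have b3 := H (X × X) (μ.prod μ) _ c3 fun n => by
      refine (measure_mono (t := Prod.fst ⁻¹' {x | g x n ≠ 0} ∪ Prod.snd ⁻¹' {x | g x n ≠ 0})
        fun p hp => ?_).trans ((measure_union_le _ _).trans ?_)
      · by_contra h
        simp only [mem_union, mem_preimage, mem_ofPred_eq, not_or, not_not] at h
        apply hp
        rw [lp.coeFn_add, Pi.add_apply, cut_apply, cut_apply]
        simp [h.1, h.2]
      · rw [measurePreserving_fst.measure_preimage (hA n).nullMeasurableSet,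
          measurePreserving_snd.measure_preimage (hA n).nullMeasurableSet, ← ENNReal.add_halves η]
        exact add_le_add ((hZ n).trans (min_le_left _ _)) ((hZ n).trans (min_le_left _ _))
    simp only [map_add] at b3
    rw [integral_add (hL.integrable _ c1) (hL.integrable _ c2)] at b3
    have d1 : |∫ p, L (cut (g p.1) {n | g p.2 n ≠ 0}) ∂(μ.prod μ)| ≤ ε / 2 :=
      le_of_mul_le_mul_left (by linarith) hk0
    have d2 : |∫ p, L (cut (g p.2) {n | g p.1 n ≠ 0}) ∂(μ.prod μ)| ≤ ε / 2 :=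
      le_of_mul_le_mul_left (by linarith) hk0
    rw [abs_le] at b3 d1 d2 ⊢
    rw [pow_succ, ← div_div]
    constructor <;> linarith [b3.1, b3.2, d1.1, d1.2, d2.1, d2.2]

/-- sequences whose coordinates are rarely nonzero have small mean value -/
theorem UM.small (ε : ℝ) (hε : 0 < ε) : ∃ η : ℝ≥0∞, 0 < η ∧
    ∀ (X : Type) [MeasurableSpace X] (μ : Measure X) [IsProbabilityMeasure μ] (g : X → Linf),
      Good g → (∀ n, μ {x | g x n ≠ 0} ≤ η) → |∫ x, L (g x) ∂μ| ≤ ε := by
  obtain ⟨j, hj⟩ := pow_unbounded_of_one_lt (‖L‖ / (ε / 2)) (one_lt_two (α := ℝ))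
  obtain ⟨η, hη, H⟩ := hL.halve j (ε / 2) (half_pos hε)
  refine ⟨η, hη, fun X _ μ _ g hg h => (H X μ g hg h).trans ?_⟩
  have : ‖L‖ / 2 ^ j ≤ ε / 2 := by
    rw [div_lt_iff₀ (half_pos hε)] at hj
    rw [div_le_iff₀ (by positivity)]
    linarith
  linarith

end Pool.Agent.MP701998

end

section

open MeasureTheory Set
open scoped ENNReal

namespace Pool.Agent.MP701998

theorem perfect_aux {X Y : Type*} [TopologicalSpace X] [PolishSpace X] [MeasurableSpace X]
    [BorelSpace X] [TopologicalSpace Y] [T2Space Y] [MeasurableSpace Y] [OpensMeasurableSpace Y]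
    (ν : Measure X) [IsFiniteMeasure ν] {r : X → Y} (hr : Continuous r) {B : Set X}
    (hB : MeasurableSet B) : ∃ C : Set Y, MeasurableSet C ∧ C ⊆ r '' B ∧ ν (B \ r ⁻¹' C) = 0 := by
  have h : ∀ n : ℕ, ∃ K ⊆ B, IsCompact K ∧ ν (B \ K) < (n : ℝ≥0∞)⁻¹ := fun n =>
    hB.exists_isCompact_sdiff_lt (measure_ne_top _ _) (by simp)
  choose K hK1 hK2 hK3 using h
  refine ⟨⋃ n, r '' K n, MeasurableSet.iUnion fun n => ((hK2 n).image hr).measurableSet,
    iUnion_subset fun n => image_mono (hK1 n), ?_⟩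
  refine le_antisymm (ge_of_tendsto' ENNReal.tendsto_inv_nat_nhds_zero fun n => ?_) bot_le
  refine le_trans (measure_mono ?_) (hK3 n).le
  intro x hx
  exact ⟨hx.1, fun hx' => hx.2 (mem_iUnion.2 ⟨n, mem_image_of_mem r hx'⟩)⟩

theorem perfect_aux2 {X Y : Type*} [MeasurableSpace X] [StandardBorelSpace X]
    [TopologicalSpace Y] [T2Space Y] [SecondCountableTopology Y] [MeasurableSpace Y]
    [OpensMeasurableSpace Y] (ν : Measure X) [IsFiniteMeasure ν] {r : X → Y} (hr : Measurable r)
    {B : Set X} (hB : MeasurableSet B) :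
    ∃ C : Set Y, MeasurableSet C ∧ C ⊆ r '' B ∧ ν (B \ r ⁻¹' C) = 0 := by
  let := upgradeStandardBorel X
  have hP : PolishSpace X := inferInstance
  obtain ⟨t', hle, hc, ht'⟩ := hr.exists_continuous
  have hb : @BorelSpace X t' _ := by
    refine @BorelSpace.mk X t' _ ?_
    rw [borel_eq_borel_of_le ht' hP hle]
    exact eq_borel_upgradeStandardBorel X
  exact @perfect_aux X Y t' ht' _ hb _ _ _ _ ν _ r hc B hB

/-- a set whose preimage under a Borel map is measurable is measurable for the image measure -/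
theorem perfect {X Y : Type*} [MeasurableSpace X] [StandardBorelSpace X]
    [TopologicalSpace Y] [T2Space Y] [SecondCountableTopology Y] [MeasurableSpace Y]
    [OpensMeasurableSpace Y] (ν : Measure X) [IsFiniteMeasure ν] {r : X → Y} (hr : Measurable r)
    {S : Set Y} (hS : NullMeasurableSet (r ⁻¹' S) ν) : NullMeasurableSet S (ν.map r) := by
  obtain ⟨B, hB1, hB2, hB3⟩ := hS.exists_measurable_subset_ae_eq
  obtain ⟨B', hB1', hB2', hB3'⟩ := hS.compl.exists_measurable_subset_ae_eq
  obtain ⟨C, hC1, hC2, hC3⟩ := perfect_aux2 ν hr hB2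
  obtain ⟨C', hC1', hC2', hC3'⟩ := perfect_aux2 ν hr hB2'
  have h1 : C ⊆ S := hC2.trans (image_subset_iff.2 hB1)
  have h2 : C' ⊆ Sᶜ := hC2'.trans (image_subset_iff.2 hB1')
  have h3 : (ν.map r) (C ∪ C')ᶜ = 0 := by
    rw [Measure.map_apply hr (hC1.union hC1').compl]
    have h4 : ν (r ⁻¹' S \ B) = 0 := (ae_eq_set.1 hB3).2
    have h5 : ν ((r ⁻¹' S)ᶜ \ B') = 0 := (ae_eq_set.1 hB3').2
    refine measure_mono_null (t := (r ⁻¹' S \ B ∪ (r ⁻¹' S)ᶜ \ B') ∪
      (B \ r ⁻¹' C ∪ B' \ r ⁻¹' C')) ?_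
      (measure_union_null (measure_union_null h4 h5) (measure_union_null hC3 hC3'))
    intro x hx
    simp only [mem_preimage, mem_compl_iff, mem_union, not_or, mem_sdiff] at hx ⊢
    tauto
  refine hC1.nullMeasurableSet.congr (ae_eq_set.2 ⟨?_, ?_⟩)
  · rw [sdiff_eq_empty.2 h1, measure_empty]
  · refine measure_mono_null (fun y hy => ?_) h3
    rintro (h | h)
    · exact hy.2 h
    · exact h2 h hy.1

end Pool.Agent.MP701998

end

section

open MeasureTheory ProbabilityTheory Set Filter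
open scoped ENNReal Topology Classical

namespace Pool.Agent.MP701998

theorem cheb {X : Type} [MeasurableSpace X] (μ : Measure X) [IsProbabilityMeasure μ] {u : X → ℝ}
    (hu : Measurable u) (h1 : ∀ x, ‖u x‖ ≤ 1) {N : ℕ} (hN : 0 < N) {δ : ℝ} (hδ : 0 < δ) :
    (Measure.pi fun _ : Fin N => μ) {x | δ ≤ |(N : ℝ)⁻¹ * ∑ i, u (x i) - ∫ y, u y ∂μ|} ≤
      ENNReal.ofReal ((N : ℝ)⁻¹ / δ ^ 2) := by
  have hN' : (0 : ℝ) < N := by exact_mod_cast hN
  have hm : MemLp u 2 μ := MemLp.of_bound hu.aestronglyMeasurable 1 (Eventually.of_forall h1)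
  have hmi : ∀ i : Fin N, MemLp (fun x : Fin N → X => u (x i)) 2 (Measure.pi fun _ => μ) :=
    fun i => hm.comp_measurePreserving (measurePreserving_eval (fun _ : Fin N => μ) i)
  have hs : MemLp (fun x : Fin N → X => (N : ℝ)⁻¹ * ∑ i, u (x i)) 2 (Measure.pi fun _ => μ) :=
    (memLp_finsetSum _ fun i _ => hmi i).const_mul _
  have he : ∫ x : Fin N → X, (N : ℝ)⁻¹ * ∑ i, u (x i) ∂(Measure.pi fun _ => μ) = ∫ y, u y ∂μ := by
    rw [integral_const_mul, integral_finsetSum _ fun i _ => (hmi i).integrable one_le_two]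
    simp only [integral_comp_eval (μ := fun _ : Fin N => μ) hu.aestronglyMeasurable]
    simp [hN'.ne']
  have hv : Var[u; μ] ≤ 1 := by
    have := variance_le_sq_of_bounded (μ := μ) (a := -1) (b := 1) (X := u)
      (Eventually.of_forall fun x => abs_le.1 (h1 x)) hu.aemeasurable
    norm_num at this
    exact this
  have h2 := meas_ge_le_variance_div_sq hs hδ
  rw [he] at h2
  refine h2.trans (ENNReal.ofReal_le_ofReal (div_le_div_of_nonneg_right ?_ (by positivity)))
  have h3 := variance_sum_pi (μ := fun _ : Fin N => μ) (X := fun _ => u) fun _ => hm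
  have h4 : (∑ i, fun x : Fin N → X => u (x i)) = fun x => ∑ i, u (x i) := by
    funext x
    simp
  rw [h4] at h3
  rw [variance_const_mul, h3]
  simp only [Finset.sum_const, Finset.card_univ, Fintype.card_fin, nsmul_eq_mul]
  rw [sq, mul_assoc, inv_mul_cancel_left₀ hN'.ne']
  exact mul_le_of_le_one_right (by positivity) hv

theorem UM.linear {L : Linf →L[ℝ] ℝ} (hL : UM L) {X : Type} [MeasurableSpace X] (μ : Measure X)
    [IsProbabilityMeasure μ] {f : X → Linf} (hf : Good f) {b : Linf}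
    (hb : ∀ n, b n = ∫ x, f x n ∂μ) : ∫ x, L (f x) ∂μ = L b := by
  refine eq_of_forall_dist_le fun ε hε => ?_
  have hfn : ∀ n x, ‖f x n‖ ≤ 1 := fun n x => (abs_le_norm _ n).trans (hf.2 x)
  have hb1 : ‖b‖ ≤ 1 := lp.norm_le_of_forall_le' _ fun n => by
    rw [hb]
    simpa using norm_integral_le_of_norm_le_const (μ := μ) (Eventually.of_forall (hfn n))
  obtain ⟨η, hη, H⟩ := hL.small (ε / 4) (by positivity)
  obtain ⟨δ, hδ, hδ'⟩ : ∃ δ : ℝ, 0 < δ ∧ ‖L‖ * δ ≤ ε / 4 :=
    ⟨ε / 4 / (‖L‖ + 1), by positivity, by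
      rw [mul_div_assoc', div_le_iff₀ (by positivity)]
      nlinarith [norm_nonneg L]⟩
  obtain ⟨N, hN, hN'⟩ : ∃ N : ℕ, 0 < N ∧ ENNReal.ofReal ((N : ℝ)⁻¹ / δ ^ 2) ≤ η := by
    have h1 : Tendsto (fun N : ℕ => ENNReal.ofReal ((N : ℝ)⁻¹ / δ ^ 2)) atTop (𝓝 0) := by
      have := ENNReal.tendsto_ofReal ((tendsto_inv_atTop_nhds_zero_nat (𝕜 := ℝ)).div_const (δ ^ 2))
      simpa using this
    exact ((eventually_gt_atTop 0).and (h1.eventually (ge_mem_nhds hη))).exists
  have hN0 : (0 : ℝ) < N := by exact_mod_cast hN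
  let D : (Fin N → X) → Linf := fun x => (2 : ℝ)⁻¹ • ((N : ℝ)⁻¹ • ∑ i, f (x i) - b)
  have hD : ∀ x n, D x n = 2⁻¹ * ((N : ℝ)⁻¹ * ∑ i, f (x i) n - b n) := fun x n => by
    simp only [D, lp.coeFn_smul, lp.coeFn_sub, lp.coeFn_sum, Pi.smul_apply, Pi.sub_apply,
      Finset.sum_apply, smul_eq_mul]
  have hm : ∀ n, Measurable fun x : Fin N → X => (N : ℝ)⁻¹ * ∑ i, f (x i) n - b n := fun n =>
    ((Finset.measurable_sum _ fun i _ => (hf.1 n).comp (measurable_pi_apply i)).const_mul
      _).sub_const _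
  have hG : Good D := by
    refine ⟨fun n => ?_, fun x => ?_⟩
    · simp only [hD]
      exact (hm n).const_mul _
    · have h1 : ‖∑ i, f (x i)‖ ≤ N := by
        refine (norm_sum_le _ _).trans ((Finset.sum_le_card_nsmul _ _ 1 fun i _ => hf.2 _).trans ?_)
        simp
      have h2 : ‖(N : ℝ)⁻¹ • ∑ i, f (x i)‖ ≤ 1 := by
        rw [norm_smul, norm_inv, Real.norm_natCast, inv_mul_le_iff₀ hN0, mul_one]
        exact h1
      have h3 := norm_sub_le ((N : ℝ)⁻¹ • ∑ i, f (x i)) b
      simp only [D]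
      rw [norm_smul, norm_inv, Real.norm_two]
      linarith
  let S : (Fin N → X) → Set ℕ := fun x => {n | δ ≤ |(N : ℝ)⁻¹ * ∑ i, f (x i) n - b n|}
  have hS : ∀ n, MeasurableSet {x | n ∈ S x} := fun n =>
    measurableSet_le measurable_const (hm n).abs
  have e1 := hL.integral_cut (Measure.pi fun _ : Fin N => μ) hG hS
  have b1 := H _ (Measure.pi fun _ : Fin N => μ) _ (hG.cut hS) fun n => by
    refine (measure_mono fun x hx => ?_).trans ((cheb μ (hf.1 n) (hfn n) hN hδ).trans hN')
    have := (cut_ne hx).1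
    rw [mem_ofPred_eq, ← hb]
    exact this
  have b2 := abs_integral_le (L := L) (Measure.pi fun _ : Fin N => μ)
    (f := fun x => cut (D x) (S x)ᶜ) (c := δ) (Eventually.of_forall fun x =>
      lp.norm_le_of_forall_le' _ fun n => by
        rw [cut_apply]
        split_ifs with h
        · have h' : |(N : ℝ)⁻¹ * ∑ i, f (x i) n - b n| < δ := not_le.1 h
          rw [hD, Real.norm_eq_abs, abs_mul, abs_of_pos (by norm_num : (0 : ℝ) < 2⁻¹)]
          linarith
        · simpa using hδ.le)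
  have hi : ∀ i : Fin N, Good fun x : Fin N → X => f (x i) := fun i =>
    hf.comp (measurable_pi_apply i)
  have e2 : ∫ x, L (D x) ∂(Measure.pi fun _ : Fin N => μ) = 2⁻¹ * (∫ x, L (f x) ∂μ - L b) := by
    simp only [D, map_smul, map_sub, map_sum, smul_eq_mul]
    rw [integral_const_mul, integral_sub ((integrable_finsetSum _ fun i _ =>
      hL.integrable _ (hi i)).const_mul _) (integrable_const _), integral_const_mul,
      integral_finsetSum _ fun i _ => hL.integrable _ (hi i)]
    have : ∀ i : Fin N, ∫ x : Fin N → X, L (f (x i)) ∂(Measure.pi fun _ : Fin N => μ) =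
        ∫ x, L (f x) ∂μ := fun i =>
      hL.integral_comp (measurePreserving_eval (fun _ : Fin N => μ) i) hf
    simp [this, hN0.ne']
  rw [e2] at e1
  rw [Real.dist_eq]
  rw [abs_le] at b1 b2 ⊢
  constructor <;> linarith [b1.1, b1.2, b2.1, b2.2]

/-- truncation of an arbitrary sequence -/
noncomputable def clamp (y : ℕ → ℝ) : Linf :=
  ⟨fun n => if |y n| ≤ 1 then y n else 0, memℓp_infty ⟨1, by
    rintro _ ⟨n, rfl⟩
    by_cases h : |y n| ≤ 1
    · simp [h]
    · simp [h]⟩⟩

theorem clamp_apply (y : ℕ → ℝ) (n : ℕ) : clamp y n = if |y n| ≤ 1 then y n else 0 := rfl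

theorem good_clamp : Good clamp := by
  refine ⟨fun n => Measurable.ite (measurableSet_le (measurable_pi_apply n).abs measurable_const)
    (measurable_pi_apply n) measurable_const, fun y => lp.norm_le_of_forall_le' _ fun n => ?_⟩
  rw [clamp_apply]
  split_ifs with h
  · exact h
  · simp

theorem clamp_eq {v : Linf} (h : ‖v‖ ≤ 1) : clamp (fun n => v n) = v := by
  ext n
  exact if_pos ((abs_le_norm v n).trans h)

variable {L : Linf →L[ℝ] ℝ}
  (hL : ∀ f : ℝ → Linf, Good f → ∀ c : ℝ, NullMeasurableSet {t | L (f t) < c} volume)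
include hL

theorem aemeasurable_clamp (ν : Measure (ℕ → ℝ)) [IsProbabilityMeasure ν] :
    AEMeasurable (fun y => L (clamp y)) ν := by
  obtain ⟨r, hr, rfl⟩ := ν.exists_measurable_map_eq
  refine NullMeasurable.aemeasurable (measurable_of_Iio fun c => ?_)
  refine perfect volume hr (S := (fun y => L (clamp y)) ⁻¹' Iio c) ?_
  have hp : Measurable (projIcc (0 : ℝ) 1 zero_le_one) := continuous_projIcc.measurable
  have h1 := ((hL _ (good_clamp.comp (hr.comp hp)) c).mono_ac
    Measure.absolutelyContinuous_restrict).preimage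
    unitInterval.measurePreserving_coe.quasiMeasurePreserving
  convert h1 using 1
  ext t
  simp

theorem um_of_lebesgue : UM L := by
  intro X _ μ _ f hf
  have hφ : Measurable fun x n => f x n := measurable_pi_lambda _ hf.1
  have := Measure.isProbabilityMeasure_map (μ := μ) hφ.aemeasurable
  have h1 := (aemeasurable_clamp hL (μ.map fun x n => f x n)).comp_measurable hφ
  simpa only [Function.comp_def, clamp_eq (hf.2 _)] using h1

theorem medial {Ω : Type*} [MeasurableSpace Ω] (μ : Measure Ω) [IsProbabilityMeasure μ]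
    {f : Ω → Linf} (hf : Good f) {b : Linf} (hb : ∀ n, b n = ∫ x, f x n ∂μ) :
    Integrable (fun x => L (f x)) μ ∧ ∫ x, L (f x) ∂μ = L b := by
  have hφ : Measurable fun x n => f x n := measurable_pi_lambda _ hf.1
  have := Measure.isProbabilityMeasure_map (μ := μ) hφ.aemeasurable
  have hU := um_of_lebesgue hL
  have h1 := hU.integrable (μ.map fun x n => f x n) good_clamp
  have h2 := hU.linear (μ.map fun x n => f x n) good_clamp (b := b) fun n => by
    rw [integral_map hφ.aemeasurable (good_clamp.1 n).aestronglyMeasurable, hb]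
    simp only [clamp_eq (hf.2 _)]
  rw [integral_map hφ.aemeasurable h1.aestronglyMeasurable] at h2
  have h3 := (integrable_map_measure h1.aestronglyMeasurable hφ.aemeasurable).1 h1
  simp only [Function.comp_def, clamp_eq (hf.2 _)] at h2 h3
  exact ⟨h3, h2⟩

end Pool.Agent.MP701998

end

section

open MeasureTheory Set Filter
open scoped ENNReal Topology Classical

namespace Pool.Agent.MP701998

/-- step approximation -/
noncomputable def stp (m : ℕ) (v : Linf) : Linf :=
  ∑ j ∈ Finset.range (2 * m + 1), ((j : ℝ) / m - 1) • cut 1 {n | ⌊(m : ℝ) * (v n + 1)⌋₊ = j}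

theorem stp_close {m : ℕ} (hm : 0 < m) {v : Linf} (hv : ‖v‖ ≤ 1) : ‖stp m v - v‖ ≤ 1 / m :=
  lp.norm_le_of_forall_le' _ fun n => by
    have hm' : (0 : ℝ) < m := by exact_mod_cast hm
    obtain ⟨a1, a2⟩ := abs_le.1 ((abs_le_norm v n).trans hv)
    have h0 : 0 ≤ (m : ℝ) * (v n + 1) := mul_nonneg hm'.le (by linarith)
    have h1 := Nat.floor_le h0
    have h2 := Nat.lt_floor_add_one ((m : ℝ) * (v n + 1))
    have h3 : ⌊(m : ℝ) * (v n + 1)⌋₊ ∈ Finset.range (2 * m + 1) := by
      rw [Finset.mem_range, Nat.lt_succ_iff]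
      refine Nat.floor_le_of_le ?_
      push_cast
      nlinarith
    have h4 : stp m v n = ⌊(m : ℝ) * (v n + 1)⌋₊ / m - 1 := by
      unfold stp
      rw [lp.coeFn_sum, Finset.sum_apply, Finset.sum_eq_single_of_mem _ h3]
      · rw [lp.coeFn_smul, Pi.smul_apply, cut_apply, if_pos (by simp), lp.infty_coeFn_one]
        simp
      · intro j _ hj
        rw [lp.coeFn_smul, Pi.smul_apply, cut_apply, if_neg (by simpa using hj.symm), smul_zero]
    rw [lp.coeFn_sub, Pi.sub_apply, h4, Real.norm_eq_abs, abs_le]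
    constructor
    · rw [← sub_nonneg]
      have : (⌊(m : ℝ) * (v n + 1)⌋₊ : ℝ) / m - 1 - v n - -(1 / m) =
          (⌊(m : ℝ) * (v n + 1)⌋₊ + 1 - m * (v n + 1)) / m := by
        field_simp
        ring
      rw [this]
      exact div_nonneg (by linarith) hm'.le
    · have : (⌊(m : ℝ) * (v n + 1)⌋₊ : ℝ) / m ≤ v n + 1 := by
        rw [div_le_iff₀ hm']
        linarith
      have h5 : (0 : ℝ) ≤ 1 / m := by positivity
      linarith

theorem null_of_binary {L : Linf →L[ℝ] ℝ}
    (hL : ∀ f : ℝ → Linf, (∀ n, Measurable fun t => f t n) → (∀ t n, f t n = 0 ∨ f t n = 1) →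
      ∀ c : ℝ, NullMeasurableSet {t | L (f t) < c} volume)
    (f : ℝ → Linf) (hf : Good f) (c : ℝ) : NullMeasurableSet {t | L (f t) < c} volume := by
  have h1 : ∀ m : ℕ, AEMeasurable (fun t => L (stp (m + 1) (f t))) volume := fun m => by
    simp only [stp, map_sum, map_smul, smul_eq_mul]
    refine Finset.aemeasurable_fun_sum _ fun j _ => AEMeasurable.const_mul ?_ _
    refine NullMeasurable.aemeasurable (measurable_of_Iio fun c => hL _ (fun n => ?_) ?_ c)
    · simp only [cut_apply]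
      exact Measurable.ite ((((hf.1 n).add_const 1).const_mul _).nat_floor
        (measurableSet_singleton j)) measurable_const measurable_const
    · intro t n
      rw [cut_apply, lp.infty_coeFn_one]
      split_ifs <;> simp
  have h2 : AEMeasurable (fun t => L (f t)) volume :=
    aemeasurable_of_tendsto_metrizable_ae' h1 (Eventually.of_forall fun t => by
      refine (L.continuous.tendsto _).comp (tendsto_iff_norm_sub_tendsto_zero.2
        (squeeze_zero (fun _ => norm_nonneg _) (fun m => ?_) tendsto_one_div_add_atTop_nhds_zero_nat))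
      exact_mod_cast stp_close m.succ_pos (hf.2 t))
  exact h2.nullMeasurable measurableSet_Iio

end Pool.Agent.MP701998

end
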